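import Mathlib
import Pool.Agent.Helper52.KP.Last

/-!
# K-polystability of the projectivised nilpotent orbit closures (MP_26be5b_ag)

The definitions of the statement are in `Pool/Agent/Helper52/KP/FDefs.lean`.
-/

set_option autoImplicit false

namespace Pool.Agent.Results.MP_26be5b_ag.KPolystability

open Pool.Agent.Helper52.KP

universe u

theorem result (g : Type u) [LieRing g] [LieAlgebra ℂ g] [FiniteDimensional ℂ g]
    [LieAlgebra.IsSemisimple ℂ g] (x₀ : g) (h0 : x₀ ≠ 0)
    (hn : IsNilpotent (LieAlgebra.ad ℂ g x₀)) : KPolystable x₀ :=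
  fin1 mALG g x₀ h0 hn

end Pool.Agent.Results.MP_26be5b_ag.KPolystability
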