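import Mathlib
import Pool.Agent.Helper67.NO.Main

/-!
# MP_26be5b_ag: Ricci-flat Kaehler cone metrics with bounded potential on all nilpotent orbits

`Orb x₀`: orbit of `x₀` under the adjoint group; `RicciFlatCone x₀ ρ`: `ρ` is the potential of a
Ricci-flat Kaehler cone metric on it, bounded above and below by multiples of the norm.
-/

set_option autoImplicit false

namespace Pool.Agent.Results.MP_26be5b_ag.KaehlerEinstein

open Pool.Agent.Helper67.NO

universe u

/-- Every nonzero nilpotent orbit of every complex semisimple Lie algebra carries a smooth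
Ricci-flat Kaehler cone metric whose potential is homogeneous and comparable with the norm, that is,
a weak Kaehler-Einstein metric on the projective base of the orbit closure. -/
theorem result (g : Type u) [LieRing g] [LieAlgebra ℂ g] [FiniteDimensional ℂ g]
    [LieAlgebra.IsSemisimple ℂ g] (x₀ : g) (h0 : x₀ ≠ 0)
    (hn : IsNilpotent (LieAlgebra.ad ℂ g x₀)) :
    ∃ ρ : g → ℝ, RicciFlatCone x₀ ρ :=
  mDFI g x₀ h0 hn

end Pool.Agent.Results.MP_26be5b_ag.KaehlerEinstein
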